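import Pool.Agent.Helper8.TNG.Stmts

/-!
Row LST (MP_21b3ca_co): exactly one empty gap, the last one.
-/

namespace Pool.Agent.Helper8.TNG

theorem LST_ins_s {α : Type} (lt : α → α → Bool) (s t : α) (hp : Priv lt s t) (σ : List α) :
    ins lt σ s = σ ++ [s] := by
  induction σ with
  | nil => rfl
  | cons r σ ih => simp [ins, hp.bot r, ih]

theorem st_LST (h1 : ST_INS) (h2 : ST_FLT) (h3 : ST_NR) : ST_LST := by
  intro α _ lt s t hp w1 p hE hpt hc
  obtain ⟨i1, i2, i3, i4, i5, i6, i7, i8⟩ := h1 α lt
  obtain ⟨f1, f2, f3⟩ := h2 α lt t hp.top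
  have hst : s ≠ t := hp.ne
  have hcw : w1.count s ≤ 1 := by
    rw [List.count_append] at hc
    omega
  have hN := h3 α lt s t hp [] [] w1 false (by simp [del1]) (by simp) (by simp) hcw hE
  have hN' : del1 t (state lt w1) =
      state lt (del s t w1) ++ (if s ∈ w1 then [s] else []) := by
    simpa [state] using hN
  have hrun : state lt (w1 ++ [p]) = ins lt (state lt w1) p := by
    unfold state
    rw [i4]
    rfl
  by_cases hs : s ∈ w1
  · have hps : p ≠ s := by
      rintro rfl
      have : 1 ≤ w1.count p := List.one_le_count_iff.2 hs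
      rw [List.count_append] at hc
      simp at hc
      omega
    rw [if_pos hs] at hN'
    have hd : del s t (w1 ++ [p]) = del s t w1 ++ [p] := by
      simp [del, hpt, hps]
    have hrun2 : state lt (del s t w1 ++ [p]) = ins lt (state lt (del s t w1)) p := by
      unfold state
      rw [i4]
      rfl
    have e4 : del1 t (ins lt (state lt w1) p) = ins lt (del1 t (state lt w1)) p := f2 _ p hpt
    rw [hrun, hd, hrun2, e4, hN', i8, i1 (state lt (del s t w1)) p]
    cases h5 : lt s (outc lt (state lt (del s t w1)) p) with
    | true =>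
      left
      simp [ins, h5]
    | false =>
      right
      refine ⟨hs, rfl, ?_, rfl⟩
      simp [ins, h5]
  · left
    have hps : p = s := by
      by_contra h
      have h6 : w1.count s = 0 := List.count_eq_zero.2 hs
      rw [List.count_append, h6] at hc
      simp [List.count_cons, h] at hc
    subst hps
    rw [if_neg hs] at hN'
    rw [hrun, LST_ins_s lt p t hp]
    have hd : del p t (w1 ++ [p]) = del p t w1 := by
      simp [del]
    have e4 : del1 t (state lt w1 ++ [p]) = del1 t (state lt w1) ++ [p] := by
      simp [del1, hst]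
    rw [e4, hN', hd]
    simp

end Pool.Agent.Helper8.TNG
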