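import Pool.Agent.Helper8.TNG.Stmts

/-!
Row NR (MP_21b3ca_co): the run without empty gaps.
-/

namespace Pool.Agent.Helper8.TNG

/-- inserting `s` appends `s` -/
theorem NR_ins_s {α : Type} (lt : α → α → Bool) (s t : α) (hp : Priv lt s t) (σ : List α) :
    ins lt σ s = σ ++ [s] := by
  induction σ with
  | nil => rfl
  | cons r σ ih => simp [ins, hp.bot r, ih]

/-- inserting the private cover `t` -/
theorem NR_ins_t {α : Type} [DecidableEq α] (lt : α → α → Bool) (s t : α) (hp : Priv lt s t)
    (σ : List α) :
    del1 t (ins lt σ t) = if s ∈ σ then (del1 t σ).erase s ++ [s] else del1 t σ := by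
  induction σ with
  | nil => simp [ins, del1]
  | cons r σ ih =>
    by_cases hr : r = s
    · subst hr
      have h1 : lt r t = true := (hp.cov r).2 rfl
      have h2 : ins lt (r :: σ) t = t :: (σ ++ [r]) := by
        simp [ins, h1, NR_ins_s lt r t hp]
      rw [h2]
      have hne := hp.ne
      simp [del1, hne]
    · have h1 : lt r t = false := by
        cases h : lt r t with
        | false => rfl
        | true => exact absurd ((hp.cov r).1 h) hr
      have h2 : ins lt (r :: σ) t = r :: ins lt σ t := by simp [ins, h1]
      have hsr : s ≠ r := fun h => hr h.symm
      rw [h2]
      by_cases hrt : r = t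
      · have e1 : ∀ l : List α, del1 t (r :: l) = del1 t l := by
          intro l; simp [del1, hrt]
        rw [e1, e1, ih]
        have hiff : s ∈ r :: σ ↔ s ∈ σ := by simp [hsr]
        simp only [hiff]
      · have e1 : ∀ l : List α, del1 t (r :: l) = r :: del1 t l := by
          intro l; simp [del1, hrt]
        rw [e1, e1, ih]
        have hiff : s ∈ r :: σ ↔ s ∈ σ := by simp [hsr]
        simp only [hiff]
        split_ifs with h
        · rw [List.erase_cons_tail (by simpa using hr)]
          rfl
        · rfl

theorem NR_erase {α : Type} [DecidableEq α] (s : α) (u v : List α) (h : s ∉ u) :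
    (u ++ s :: v).erase s = u ++ v := by
  rw [List.erase_append_right _ h]
  simp

theorem st_NR (h1 : ST_INS) (h2 : ST_FLT) : ST_NR := by
  intro α _ lt s t hp σ τ w
  obtain ⟨i1, i2, i3, i4, i5, i6, i7, i8⟩ := h1 α lt
  obtain ⟨f1, f2, f3⟩ := h2 α lt t hp.top
  have hst : s ≠ t := hp.ne
  -- strong induction on the length
  obtain ⟨n, hn⟩ : ∃ n, w.length ≤ n := ⟨_, le_rfl⟩
  induction n generalizing σ τ w with
  | zero =>
    intro h hσ hsτ hh hc hE
    have : w = [] := List.length_eq_zero_iff.1 (Nat.le_zero.1 hn)
    subst this
    simp only [run, List.foldl_nil, del, List.filter_nil, List.not_mem_nil, or_false]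
    exact hσ
  | succ n ih =>
    intro h hσ hsτ hh hc hE
    match w, hn, hh, hc, hE with
    | [], _, _, _, _ =>
      simp only [run, List.foldl_nil, del, List.filter_nil, List.not_mem_nil, or_false]
      exact hσ
    | p :: w', hn, hh, hc, hE =>
      have hmem : s ∈ σ ↔ h = true := by
        have e1 : s ∈ del1 t σ ↔ s ∈ σ := by simp [del1, hst]
        rw [← e1, hσ]
        cases h <;> simp [hsτ]
      have htt : del1 t (ins lt σ t) = τ ++ (if h = true then [s] else []) := by
        rw [NR_ins_t lt s t hp]
        by_cases h3 : h = true
        · rw [if_pos (hmem.2 h3), hσ, if_pos h3, NR_erase s τ [] hsτ]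
          simp
        · rw [if_neg (fun h4 => h3 (hmem.1 h4)), hσ]
      by_cases hpt : p = t
      · subst hpt
        have hE' : nE (fun q => decide (q = p)) w' = 0 := by
          cases w' with
          | nil => rfl
          | cons q w'' =>
            simp only [nE, decide_true, Bool.true_eq_false, false_and, if_false, zero_add] at hE
            exact hE
        have hc' : w'.count s ≤ 1 := le_trans (List.count_le_count_cons ..) hc
        have := ih (ins lt σ p) τ w' (by simpa using hn) h htt hsτ
          (fun h3 h4 => hh h3 (List.mem_cons_of_mem _ h4)) hc' hE'
        have e1 : run lt σ (p :: w') = run lt (ins lt σ p) w' := rfl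
        have e2 : del s p (p :: w') = del s p w' := by simp [del]
        rw [e1, e2, this]
        have e3 : s ∈ p :: w' ↔ s ∈ w' := by simp [hst]
        simp only [e3]
      · -- p ≠ t: the next letter is t
        obtain ⟨w'', hw'', hE''⟩ : ∃ w'', w' = t :: w'' ∧ nE (fun q => decide (q = t)) w'' = 0 := by
          cases w' with
          | nil => simp [nE, hpt] at hE
          | cons q w'' =>
            by_cases hq : q = t
            · refine ⟨w'', by rw [hq], ?_⟩
              subst hq
              have h3 : nE (fun r => decide (r = q)) (q :: w'') = 0 := by
                have := hE
                simp only [nE] at this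
                omega
              cases w'' with
              | nil => rfl
              | cons r w3 =>
                simp only [nE, decide_true, Bool.true_eq_false, false_and, if_false,
                  zero_add] at h3
                exact h3
            · simp [nE, hpt, hq] at hE
        subst hw''
        have e1 : run lt σ (p :: t :: w'') = run lt (ins lt (ins lt σ p) t) w'' := rfl
        have hn' : w''.length ≤ n := by
          simp only [List.length_cons] at hn
          omega
        have hcw : w''.count s ≤ 1 :=
          le_trans (le_trans (List.count_le_count_cons ..) (List.count_le_count_cons ..)) hc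
        by_cases hps : p = s
        · subst hps
          have hh0 : h = false := by
            cases h with
            | false => rfl
            | true => exact absurd (List.mem_cons_self ..) (hh rfl)
          subst hh0
          have hsw : p ∉ w'' := by
            intro h3
            have h4 : 1 ≤ w''.count p := List.one_le_count_iff.2 h3
            have h5 : (p :: t :: w'').count p = w''.count p + 1 := by
              simp [List.count_cons, hpt, Ne.symm hst]
            omega
          have hσ' : del1 t σ = τ := by simpa using hσ
          have e2 : del1 t (ins lt (ins lt σ p) t) = τ ++ (if true = true then [p] else []) := by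
            rw [NR_ins_t lt p t hp, NR_ins_s lt p t hp]
            have h3 : p ∉ del1 t σ := by rw [hσ']; exact hsτ
            have h4 : del1 t (σ ++ [p]) = del1 t σ ++ [p] := by simp [del1, hst]
            rw [if_pos (by simp), h4, NR_erase p _ [] h3, hσ']
            simp
          have := ih (ins lt (ins lt σ p) t) τ w'' hn' true e2 hsτ (fun _ => hsw) hcw hE''
          rw [e1, this]
          have e3 : del p t (p :: t :: w'') = del p t w'' := by simp [del]
          rw [e3]
          simp
        · -- p different from s and t
          have hτ' : s ∉ ins lt τ p := by
            rw [(i2 τ p).mem_iff]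
            simp [hsτ, Ne.symm hps]
          have hmem1 : s ∈ ins lt σ p ↔ h = true := by
            rw [(i2 σ p).mem_iff, List.mem_cons]
            simp [Ne.symm hps, hmem]
          have e4 : del1 t (ins lt σ p) = ins lt (del1 t σ) p := f2 σ p hpt
          have e2 : del1 t (ins lt (ins lt σ p) t) =
              ins lt τ p ++ (if h = true then [s] else []) := by
            rw [NR_ins_t lt s t hp]
            by_cases h3 : h = true
            · rw [if_pos (hmem1.2 h3), e4, hσ, if_pos h3, i8]
              have hsu : s ∉ upd lt τ p := by
                intro h4
                apply hτ'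
                rw [i1]
                exact List.mem_append_left _ h4
              have hsr : outc lt τ p ≠ s := by
                intro h4
                apply hτ'
                rw [i1, h4]
                simp
              rw [i1 τ p]
              cases h5 : lt s (outc lt τ p) with
              | true =>
                have e5 : ins lt [s] (outc lt τ p) = [outc lt τ p, s] := by simp [ins, h5]
                rw [e5]
                have e6 : upd lt τ p ++ [outc lt τ p, s] =
                    (upd lt τ p ++ [outc lt τ p]) ++ s :: [] := by simp
                rw [e6, NR_erase s _ [] (by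
                  simp [hsu, Ne.symm hsr])]
                simp
              | false =>
                have e5 : ins lt [s] (outc lt τ p) = [s, outc lt τ p] := by simp [ins, h5]
                rw [e5, NR_erase s _ _ hsu]
            · rw [if_neg (fun h4 => h3 (hmem1.1 h4)), e4, hσ, if_neg h3]
              simp
          have := ih (ins lt (ins lt σ p) t) (ins lt τ p) w'' hn' h e2 hτ'
            (fun h3 h4 => hh h3 (List.mem_cons_of_mem _ (List.mem_cons_of_mem _ h4))) hcw hE''
          rw [e1, this]
          have e3 : del s t (p :: t :: w'') = p :: del s t w'' := by
            simp [del, hpt, hps]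
          have e7 : s ∈ p :: t :: w'' ↔ s ∈ w'' := by simp [Ne.symm hps, hst]
          rw [e3]
          simp only [e7]
          rfl

end Pool.Agent.Helper8.TNG
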