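import Pool.Agent.Helper8.TNG.Stmts

/-!
Rows SVC, SVE, SVZ (MP_21b3ca_co): the servers `c`, `e`, `z`.
-/

namespace Pool.Agent.Helper8.TNG

open Finset

/-- the success event in terms of kinds -/
theorem SV_map (hMAP : ST_MAP) (B M K K' : ℕ) (S : Finset (El B M K K')) (v l : El B M K K') :
    pr S (fun w => elt B M K K' v (outc (elt B M K K') (state (elt B M K K') w) l) = true) =
      pr S (fun w => tlt (tk v) (outc tlt (state tlt (w.map tk)) (tk l)) = true) := by
  obtain ⟨h1, _, h3⟩ := hMAP (El B M K K') Tok (elt B M K K') tlt tk (fun p q => rfl)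
  congr 1
  funext w
  rw [h3, h1]
  rfl

/-- erasing a kind -/
theorem SV_del (hWC : ST_WC) (hPB : ST_PB) (hER : ST_ER) (B M K K' : ℕ) (u l : El B M K K')
    (t : Tok) (Q : List Tok → Prop) :
    pr (Finset.univ \ {u, l}) (fun w => Q (del1 t (w.map tk))) =
      pr (Am B M K K' u l t) (fun w => Q (w.map tk)) := by
  rw [← hER (El B M K K') (Finset.univ \ {u, l}) (Am B M K K' u l t)
    (fun w => Q (w.map tk)) (Finset.filter_subset _ _)]
  apply (hPB (El B M K K') (Finset.univ \ {u, l}) _ _).2.2.2.1
  intro w hw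
  have hw' := (hWC (El B M K K') (Finset.univ \ {u, l})).1 w |>.1 hw
  have : (w.filter (fun p => decide (p ∈ Am B M K K' u l t))).map tk = del1 t (w.map tk) := by
    unfold del1
    rw [List.filter_map]
    congr 1
    apply List.filter_congr
    intro p hp
    have hp' := (hw'.2 p).1 hp
    simp [Am, hp']
  rw [this]

/-- the core letters -/
def SV_T (B M K K' : ℕ) (l : El B M K K') : Finset (El B M K K') :=
  (Finset.univ \ {l}).filter (fun p => core (tk p) = true)

theorem SV_core (hWC : ST_WC) (hPB : ST_PB) (hER : ST_ER) (B M K K' : ℕ) (u l : El B M K K')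
    (hu : core (tk u) = false) (S : Tok → Bool) :
    pr (Finset.univ \ {u, l}) (fun w => SR S (w.map tk)) =
      pr (SV_T B M K K' l) (fun w => Rb S (state tlt (w.map tk)) = true) := by
  have hsub : SV_T B M K K' l ⊆ Finset.univ \ {u, l} := by
    intro p hp
    have h1 := Finset.mem_filter.1 hp
    have h2 := Finset.mem_sdiff.1 h1.1
    rw [Finset.mem_sdiff]
    refine ⟨Finset.mem_univ _, ?_⟩
    intro h3
    rcases Finset.mem_insert.1 h3 with h4 | h4
    · rw [h4, hu] at h1
      exact absurd h1.2 (by simp)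
    · exact h2.2 h4
  rw [← hER (El B M K K') (Finset.univ \ {u, l}) (SV_T B M K K' l)
    (fun w => Rb S (state tlt (w.map tk)) = true) hsub]
  apply (hPB (El B M K K') (Finset.univ \ {u, l}) _ _).2.2.2.1
  intro w hw
  have hw' := (hWC (El B M K K') (Finset.univ \ {u, l})).1 w |>.1 hw
  have : (w.filter (fun p => decide (p ∈ SV_T B M K K' l))).map tk =
      (w.map tk).filter core := by
    rw [List.filter_map]
    congr 1
    apply List.filter_congr
    intro p hp
    have hp' := (hw'.2 p).1 hp
    have h2 := Finset.mem_sdiff.1 hp'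
    have h3 : p ≠ l := by
      intro h4
      apply h2.2
      rw [h4]
      simp
    simp only [SV_T, Finset.mem_filter, Finset.mem_sdiff, Finset.mem_univ, true_and,
      Finset.mem_singleton, h3, not_false_eq_true, Function.comp]
    cases core (tk p) <;> simp
  rw [this]
  rfl

theorem SV_x (B M K K' : ℕ) : tk (eX B M K K') = .x := rfl
theorem SV_y (B M K K' : ℕ) : tk (eY B M K K') = .y := rfl
theorem SV_e (B M K K' : ℕ) : tk (eE B M K K') = .e := rfl
theorem SV_z (B M K K' : ℕ) : tk (eZ B M K K') = .z := rfl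

theorem SV_ne {B M K K' : ℕ} {p q : El B M K K'} (h : tk p ≠ tk q) : p ≠ q := by
  rintro rfl
  exact h rfl

theorem st_SVC (hWC : ST_WC) (hPB : ST_PB) (hER : ST_ER) (hMAP : ST_MAP) (hCT : ST_CT)
    (hPYC : ST_PYC) : ST_SVC := by
  intro B M K K' l hl
  unfold sv
  rw [SV_map hMAP, SV_map hMAP, SV_x, SV_y, hl]
  have hne : eY B M K K' ≠ l := SV_ne (by rw [SV_y, hl]; decide)
  set S := Finset.univ \ {eY B M K K', l} with hS
  have e2eq : e2 B M K K' l =
      pr S (fun w => 2 ≤ nE (fun q => decide (q = Tok.f)) (del1 .g (w.map tk))) :=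
    (SV_del hWC hPB hER B M K K' (eY B M K K') l .g
      (fun w => 2 ≤ nE (fun q => decide (q = Tok.f)) w)).symm
  have h0 : 0 ≤ pr (Finset.univ \ {eX B M K K', l})
      (fun w => tlt .x (outc tlt (state tlt (w.map tk)) .c) = true) :=
    (hPB _ _ _ (fun _ => True)).1
  have h1 := (hPB (El B M K K') S
    (fun w => 2 ≤ nE (fun q => decide (q = Tok.f)) (del1 .g (w.map tk)))
    (fun _ => True)).2.2.2.2.2.2.1
  have h2 : pr S (fun w => ¬ 2 ≤ nE (fun q => decide (q = Tok.f)) (del1 .g (w.map tk))) ≤
      pr S (fun w => tlt .y (outc tlt (state tlt (w.map tk)) .c) = true) := by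
    apply (hPB (El B M K K') S _ _).2.2.1
    intro w hw h3
    have hct := hCT B M K K' (eY B M K K') l hne w hw
    apply hPYC (w.map tk)
    · have := hct .y
      rw [SV_y, hl] at this
      exact List.count_eq_zero.1 (by simpa [cnt] using this)
    · have := hct .x
      rw [SV_y, hl] at this
      simpa [cnt] using this
    · have := hct .a
      rw [SV_y, hl] at this
      simpa [cnt] using this
    · omega
  rw [e2eq]
  linarith

theorem st_SVE (hWC : ST_WC) (hPB : ST_PB) (hER : ST_ER) (hMAP : ST_MAP) (hCT : ST_CT)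
    (hPYE : ST_PYE) (hPXS : ST_PXS) : ST_SVE := by
  intro B M K K'
  unfold sv
  rw [SV_map hMAP, SV_map hMAP, SV_x, SV_y, SV_e]
  have hney : eY B M K K' ≠ eE B M K K' := SV_ne (by rw [SV_y, SV_e]; decide)
  have hnex : eX B M K K' ≠ eE B M K K' := SV_ne (by rw [SV_x, SV_e]; decide)
  set S := Finset.univ \ {eY B M K K', eE B M K K'} with hS
  set T := Finset.univ \ {eX B M K K', eE B M K K'} with hT
  have e2eq : e2 B M K K' (eE B M K K') =
      pr S (fun w => 2 ≤ nE (fun q => decide (q = Tok.f)) (del1 .g (w.map tk))) :=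
    (SV_del hWC hPB hER B M K K' (eY B M K K') (eE B M K K') .g
      (fun w => 2 ≤ nE (fun q => decide (q = Tok.f)) w)).symm
  have coeq : pr (Am B M K K' (eY B M K K') (eE B M K K') .g) (fun w => coste (w.map tk)) =
      pr S (fun w => coste (del1 .g (w.map tk))) :=
    (SV_del hWC hPB hER B M K K' (eY B M K K') (eE B M K K') .g (fun w => coste w)).symm
  have e1eq : e1 B M K K' (eE B M K K') =
      pr T (fun w => 1 ≤ nE (fun q => decide (q = Tok.g)) (del1 .f (w.map tk))) :=
    (SV_del hWC hPB hER B M K K' (eX B M K K') (eE B M K K') .f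
      (fun w => 1 ≤ nE (fun q => decide (q = Tok.g)) w)).symm
  have hSR : pr T (fun w => SR BB (w.map tk)) = pr S (fun w => SR BB (w.map tk)) := by
    rw [hS, hT, SV_core hWC hPB hER B M K K' _ _ (by rw [SV_x]; decide) BB,
      SV_core hWC hPB hER B M K K' _ _ (by rw [SV_y]; decide) BB]
  -- y side
  have hy : 1 ≤ pr S (fun w => tlt .y (outc tlt (state tlt (w.map tk)) .e) = true) +
      (pr S (fun w => SR BB (w.map tk)) + (pr S (fun w => coste (del1 .g (w.map tk))) +
        pr S (fun w => 2 ≤ nE (fun q => decide (q = Tok.f)) (del1 .g (w.map tk))))) := by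
    have a1 := (hPB (El B M K K') S (fun w => coste (del1 .g (w.map tk)))
      (fun w => 2 ≤ nE (fun q => decide (q = Tok.f)) (del1 .g (w.map tk)))).2.2.2.2.2.1
    have a2 := (hPB (El B M K K') S (fun w => SR BB (w.map tk))
      (fun w => coste (del1 .g (w.map tk)) ∨
        2 ≤ nE (fun q => decide (q = Tok.f)) (del1 .g (w.map tk)))).2.2.2.2.2.1
    have a3 := (hPB (El B M K K') S
      (fun w => tlt .y (outc tlt (state tlt (w.map tk)) .e) = true)
      (fun w => SR BB (w.map tk) ∨ (coste (del1 .g (w.map tk)) ∨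
        2 ≤ nE (fun q => decide (q = Tok.f)) (del1 .g (w.map tk))))).2.2.2.2.2.1
    have a4 := (hPB (El B M K K') S
      (fun w => tlt .y (outc tlt (state tlt (w.map tk)) .e) = true ∨
        (SR BB (w.map tk) ∨ (coste (del1 .g (w.map tk)) ∨
        2 ≤ nE (fun q => decide (q = Tok.f)) (del1 .g (w.map tk))))) (fun _ => True)).2.2.2.2.1
    have a5 := a4 (by
      intro w hw
      by_cases b1 : SR BB (w.map tk)
      · exact Or.inr (Or.inl b1)
      by_cases b2 : coste (del1 .g (w.map tk))
      · exact Or.inr (Or.inr (Or.inl b2))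
      by_cases b3 : 2 ≤ nE (fun q => decide (q = Tok.f)) (del1 .g (w.map tk))
      · exact Or.inr (Or.inr (Or.inr b3))
      left
      have hct := hCT B M K K' _ _ hney w hw
      rw [SV_y, SV_e] at hct
      apply hPYE (w.map tk)
      · exact List.count_eq_zero.1 (by simpa [cnt] using hct .y)
      · exact List.count_eq_zero.1 (by simpa [cnt] using hct .e)
      · simpa [cnt] using hct .x
      · simpa [cnt] using hct .o
      · simpa [cnt] using hct .z
      · omega
      · exact b1
      · exact b2)
    linarith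
  -- x side
  have hx : pr T (fun w => SR BB (w.map tk)) ≤
      pr T (fun w => tlt .x (outc tlt (state tlt (w.map tk)) .e) = true) +
      pr T (fun w => 1 ≤ nE (fun q => decide (q = Tok.g)) (del1 .f (w.map tk))) := by
    have a1 := (hPB (El B M K K') T
      (fun w => tlt .x (outc tlt (state tlt (w.map tk)) .e) = true)
      (fun w => 1 ≤ nE (fun q => decide (q = Tok.g)) (del1 .f (w.map tk)))).2.2.2.2.2.1
    have a2 := (hPB (El B M K K') T (fun w => SR BB (w.map tk))
      (fun w => tlt .x (outc tlt (state tlt (w.map tk)) .e) = true ∨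
        1 ≤ nE (fun q => decide (q = Tok.g)) (del1 .f (w.map tk)))).2.2.1
    have a3 := a2 (by
      intro w hw b1
      by_cases b3 : 1 ≤ nE (fun q => decide (q = Tok.g)) (del1 .f (w.map tk))
      · exact Or.inr b3
      left
      have hct := hCT B M K K' _ _ hnex w hw
      rw [SV_x, SV_e] at hct
      apply (hPXS (w.map tk) _ _ _).2
      · exact b1
      · exact List.count_eq_zero.1 (by simpa [cnt] using hct .x)
      · simpa [cnt] using hct .y
      · omega)
    linarith
  rw [e2eq, coeq, e1eq]
  linarith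

theorem st_SVZ (hWC : ST_WC) (hPB : ST_PB) (hER : ST_ER) (hMAP : ST_MAP) (hCT : ST_CT)
    (hPYZ : ST_PYZ) (hPXS : ST_PXS) : ST_SVZ := by
  intro B M K K'
  unfold sv
  rw [SV_map hMAP, SV_map hMAP, SV_x, SV_y, SV_z]
  have hney : eY B M K K' ≠ eZ B M K K' := SV_ne (by rw [SV_y, SV_z]; decide)
  have hnex : eX B M K K' ≠ eZ B M K K' := SV_ne (by rw [SV_x, SV_z]; decide)
  set S := Finset.univ \ {eY B M K K', eZ B M K K'} with hS
  set T := Finset.univ \ {eX B M K K', eZ B M K K'} with hT
  have e2eq : e2 B M K K' (eZ B M K K') =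
      pr S (fun w => 2 ≤ nE (fun q => decide (q = Tok.f)) (del1 .g (w.map tk))) :=
    (SV_del hWC hPB hER B M K K' (eY B M K K') (eZ B M K K') .g
      (fun w => 2 ≤ nE (fun q => decide (q = Tok.f)) w)).symm
  have coeq : pr (Am B M K K' (eY B M K K') (eZ B M K K') .g) (fun w => costz (w.map tk)) =
      pr S (fun w => costz (del1 .g (w.map tk))) :=
    (SV_del hWC hPB hER B M K K' (eY B M K K') (eZ B M K K') .g (fun w => costz w)).symm
  have gaeq : pr (Am B M K K' (eY B M K K') (eZ B M K K') .g) (fun w => gainz (w.map tk)) =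
      pr S (fun w => gainz (del1 .g (w.map tk))) :=
    (SV_del hWC hPB hER B M K K' (eY B M K K') (eZ B M K K') .g (fun w => gainz w)).symm
  have e1eq : e1 B M K K' (eZ B M K K') =
      pr T (fun w => 1 ≤ nE (fun q => decide (q = Tok.g)) (del1 .f (w.map tk))) :=
    (SV_del hWC hPB hER B M K K' (eX B M K K') (eZ B M K K') .f
      (fun w => 1 ≤ nE (fun q => decide (q = Tok.g)) w)).symm
  have hSR : pr T (fun w => SR KK (w.map tk)) = pr S (fun w => SR KK (w.map tk)) := by
    rw [hS, hT, SV_core hWC hPB hER B M K K' _ _ (by rw [SV_x]; decide) KK,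
      SV_core hWC hPB hER B M K K' _ _ (by rw [SV_y]; decide) KK]
  have hyz : ∀ w ∈ Wd S, nE (fun q => decide (q = Tok.f)) (del1 .g (w.map tk)) ≤ 1 →
      (¬ SR KK (w.map tk) → ¬ costz (del1 .g (w.map tk)) →
        tlt .y (outc tlt (state tlt (w.map tk)) .z) = true) ∧
      (gainz (del1 .g (w.map tk)) → SR KK (w.map tk) ∧
        tlt .y (outc tlt (state tlt (w.map tk)) .z) = true) := by
    intro w hw h3
    have hct := hCT B M K K' _ _ hney w hw
    rw [SV_y, SV_z] at hct
    apply hPYZ (w.map tk)
    · exact List.count_eq_zero.1 (by simpa [cnt] using hct .y)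
    · exact List.count_eq_zero.1 (by simpa [cnt] using hct .z)
    · simpa [cnt] using hct .x
    · simpa [cnt] using hct .o
    · simpa [cnt] using hct .e
    · simpa [cnt] using hct .a
    · exact h3
  -- y side
  have hy : 1 + pr S (fun w => gainz (del1 .g (w.map tk))) ≤
      pr S (fun w => tlt .y (outc tlt (state tlt (w.map tk)) .z) = true) +
      (pr S (fun w => SR KK (w.map tk)) + (pr S (fun w => costz (del1 .g (w.map tk))) +
        2 * pr S (fun w => 2 ≤ nE (fun q => decide (q = Tok.f)) (del1 .g (w.map tk))))) := by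
    -- event A: no failure and not SR and not cost; event G: gain and no failure
    set A : List (El B M K K') → Prop := fun w =>
      nE (fun q => decide (q = Tok.f)) (del1 .g (w.map tk)) ≤ 1 ∧ ¬ SR KK (w.map tk) ∧
        ¬ costz (del1 .g (w.map tk)) with hA
    set G : List (El B M K K') → Prop := fun w =>
      nE (fun q => decide (q = Tok.f)) (del1 .g (w.map tk)) ≤ 1 ∧
        gainz (del1 .g (w.map tk)) with hG
    have b1 : pr S (fun w => A w ∨ G w) = pr S A + pr S G := by
      apply (hPB (El B M K K') S A G).2.2.2.2.2.2.2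
      intro w hw h1 h2
      exact h1.2.1 ((hyz w hw h1.1).2 h2.2).1
    have b2 : pr S (fun w => A w ∨ G w) ≤
        pr S (fun w => tlt .y (outc tlt (state tlt (w.map tk)) .z) = true) := by
      apply (hPB (El B M K K') S _ _).2.2.1
      intro w hw h1
      rcases h1 with h1 | h1
      · exact (hyz w hw h1.1).1 h1.2.1 h1.2.2
      · exact ((hyz w hw h1.1).2 h1.2).2
    have b3 : pr S (fun w => gainz (del1 .g (w.map tk))) ≤ pr S G +
        pr S (fun w => 2 ≤ nE (fun q => decide (q = Tok.f)) (del1 .g (w.map tk))) := by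
      have a1 := (hPB (El B M K K') S G
        (fun w => 2 ≤ nE (fun q => decide (q = Tok.f)) (del1 .g (w.map tk)))).2.2.2.2.2.1
      have a2 := (hPB (El B M K K') S (fun w => gainz (del1 .g (w.map tk)))
        (fun w => G w ∨
          2 ≤ nE (fun q => decide (q = Tok.f)) (del1 .g (w.map tk)))).2.2.1
      have a3 := a2 (by
        intro w hw b1
        by_cases b3 : 2 ≤ nE (fun q => decide (q = Tok.f)) (del1 .g (w.map tk))
        · exact Or.inr b3
        · exact Or.inl ⟨by omega, b1⟩)
      linarith
    have b4 : 1 ≤ pr S A + (pr S (fun w => SR KK (w.map tk)) +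
        (pr S (fun w => costz (del1 .g (w.map tk))) +
        pr S (fun w => 2 ≤ nE (fun q => decide (q = Tok.f)) (del1 .g (w.map tk))))) := by
      have a1 := (hPB (El B M K K') S (fun w => costz (del1 .g (w.map tk)))
        (fun w => 2 ≤ nE (fun q => decide (q = Tok.f)) (del1 .g (w.map tk)))).2.2.2.2.2.1
      have a2 := (hPB (El B M K K') S (fun w => SR KK (w.map tk))
        (fun w => costz (del1 .g (w.map tk)) ∨
          2 ≤ nE (fun q => decide (q = Tok.f)) (del1 .g (w.map tk)))).2.2.2.2.2.1
      have a3 := (hPB (El B M K K') S A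
        (fun w => SR KK (w.map tk) ∨ (costz (del1 .g (w.map tk)) ∨
          2 ≤ nE (fun q => decide (q = Tok.f)) (del1 .g (w.map tk))))).2.2.2.2.2.1
      have a4 := (hPB (El B M K K') S
        (fun w => A w ∨
          (SR KK (w.map tk) ∨ (costz (del1 .g (w.map tk)) ∨
          2 ≤ nE (fun q => decide (q = Tok.f)) (del1 .g (w.map tk))))) (fun _ => True)).2.2.2.2.1
      have a5 := a4 (by
        intro w hw
        by_cases b1 : SR KK (w.map tk)
        · exact Or.inr (Or.inl b1)
        by_cases b2 : costz (del1 .g (w.map tk))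
        · exact Or.inr (Or.inr (Or.inl b2))
        by_cases b3 : 2 ≤ nE (fun q => decide (q = Tok.f)) (del1 .g (w.map tk))
        · exact Or.inr (Or.inr (Or.inr b3))
        exact Or.inl ⟨by omega, b1, b2⟩)
      linarith
    linarith
  -- x side
  have hx : pr T (fun w => SR KK (w.map tk)) ≤
      pr T (fun w => tlt .x (outc tlt (state tlt (w.map tk)) .z) = true) +
      pr T (fun w => 1 ≤ nE (fun q => decide (q = Tok.g)) (del1 .f (w.map tk))) := by
    have a1 := (hPB (El B M K K') T
      (fun w => tlt .x (outc tlt (state tlt (w.map tk)) .z) = true)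
      (fun w => 1 ≤ nE (fun q => decide (q = Tok.g)) (del1 .f (w.map tk)))).2.2.2.2.2.1
    have a2 := (hPB (El B M K K') T (fun w => SR KK (w.map tk))
      (fun w => tlt .x (outc tlt (state tlt (w.map tk)) .z) = true ∨
        1 ≤ nE (fun q => decide (q = Tok.g)) (del1 .f (w.map tk)))).2.2.1
    have a3 := a2 (by
      intro w hw b1
      by_cases b3 : 1 ≤ nE (fun q => decide (q = Tok.g)) (del1 .f (w.map tk))
      · exact Or.inr b3
      left
      have hct := hCT B M K K' _ _ hnex w hw
      rw [SV_x, SV_z] at hct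
      apply (hPXS (w.map tk) _ _ _).1
      · exact b1
      · exact List.count_eq_zero.1 (by simpa [cnt] using hct .x)
      · simpa [cnt] using hct .y
      · omega)
    linarith
  rw [e2eq, coeq, gaeq, e1eq]
  linarith

end Pool.Agent.Helper8.TNG
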